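import Pool.Agent.H34.CU.N1

set_option autoImplicit false

namespace Pool.Agent.H34.CU

open Finset

theorem mem_of (p : ℕ → Prop) (inst : DecidablePred p) (s : Finset ℕ) (b : ℕ)
    (h : b ∈ @Finset.filter ℕ p inst s) : b ∈ s ∧ p b := mem_filter.1 h

theorem rough' : ∃ c : ℝ, 0 < c ∧ ∃ n0 : ℕ, ∀ n : ℕ, n0 ≤ n → ∀ a : ℕ, 1 ≤ a →
    (a : ℝ) ≤ (n : ℝ) ^ c → ∃ F : Finset ℕ, (n : ℝ) ^ (1 / 2 : ℝ) ≤ (F.card : ℝ) ∧
      ∀ b ∈ F, 1 ≤ b ∧ b ≤ n ∧ Squarefree (2 * a * b + 1) ∧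
        ∀ p ∈ (2 * a * b + 1).primeFactors, (n : ℝ) ^ c < (p : ℝ) := by
  obtain ⟨c, hc, n0, h⟩ := rough_partners
  refine ⟨c, hc, n0, fun n hn a ha hac => ⟨_, h n hn a ha hac, fun b hb => ?_⟩⟩
  obtain ⟨h1, h2, h3⟩ := mem_of _ _ _ _ hb
  exact ⟨(mem_Icc.1 h1).1, (mem_Icc.1 h1).2, h2, h3⟩

theorem many_PP (n k a A : ℕ) (x y cN : ℝ) (hk : (k : ℝ) ≤ y)
    (hklt : y < k + 1) (hyhalf : 3 * y ≤ (n : ℝ) ^ (1 / 2 : ℝ)) (hyN : y ≤ (n : ℝ) ^ cN)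
    (ha : 1 ≤ a) (h1 : (a : ℝ) ≤ x ^ A → (n : ℝ) ^ (1 / 2 : ℝ) ≤
      (((Icc 1 n).filter (fun b => (2 * a * b + 1).Prime)).card : ℝ))
    (F : Finset ℕ) (hF1 : (n : ℝ) ^ (1 / 2 : ℝ) ≤ (F.card : ℝ))
    (hF2 : ∀ b ∈ F, 1 ≤ b ∧ b ≤ n ∧ Squarefree (2 * a * b + 1) ∧
        ∀ p ∈ (2 * a * b + 1).primeFactors, (n : ℝ) ^ cN < (p : ℝ))
    (G : Finset ℕ) (hG : ∀ b, k < b → b ≤ n → Squarefree (2 * a * b + 1) →
      (∀ p ∈ (2 * a * b + 1).primeFactors, y < (p : ℝ)) →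
      ((a : ℝ) ≤ x ^ A → (2 * a * b + 1).Prime) → b ∈ G) : 2 * k ≤ G.card := by
  have key : ∀ F : Finset ℕ, (n : ℝ) ^ (1 / 2 : ℝ) ≤ (F.card : ℝ) →
      F ⊆ Icc 1 k ∪ G → 2 * k ≤ G.card := by
    intro F h5 h6
    have h7 := (card_le_card h6).trans (card_union_le _ _)
    rw [Nat.card_Icc] at h7
    have h8 : 3 * k ≤ F.card := by
      have h9 : ((3 * k : ℕ) : ℝ) ≤ (F.card : ℝ) := by
        push_cast
        linarith
      exact_mod_cast h9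
    omega
  by_cases haA : (a : ℝ) ≤ x ^ A
  · apply key _ (h1 haA)
    intro b hb
    rw [mem_filter, mem_Icc] at hb
    by_cases hbk : b ≤ k
    · exact mem_union_left _ (mem_Icc.2 ⟨hb.1.1, hbk⟩)
    · refine mem_union_right _ (hG b (by omega) hb.1.2 hb.2.squarefree ?_ fun _ => hb.2)
      intro p hp
      rw [hb.2.primeFactors, mem_singleton] at hp
      have h5 : k + 1 ≤ p := by
        have h6 : b ≤ 2 * a * b := Nat.le_mul_of_pos_left _ (by omega)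
        omega
      have h6 : (k : ℝ) + 1 ≤ p := by exact_mod_cast h5
      linarith
  · apply key _ hF1
    intro b hb
    obtain ⟨hb1, hb2, hb3, hb4⟩ := hF2 b hb
    by_cases hbk : b ≤ k
    · exact mem_union_left _ (mem_Icc.2 ⟨hb1, hbk⟩)
    · refine mem_union_right _ (hG b (by omega) hb2 hb3 ?_ fun h => absurd h haA)
      intro p hp
      have h5 := hb4 p hp
      linarith

end Pool.Agent.H34.CU
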