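import Mathlib
import Pool.Agent.H17.RP.LB

set_option autoImplicit false

namespace Pool.Agent.H34.CU

open Finset Filter Topology Pool.Agent.H17.RP


lemma exists_class (a q : ℕ) (hq : 0 < q) (h : Nat.Coprime (2 * a) q) :
    ∃ v : ℕ, ∀ b : ℕ, q ∣ 2 * a * b + 1 ↔ b ≡ v [MOD q] := by
  have hv : ∃ v : ℕ, q ∣ 2 * a * v + 1 := by
    rcases Nat.lt_or_ge 1 q with h1 | h1
    · obtain ⟨y, -, hy⟩ := Nat.exists_mul_mod_eq_one_of_coprime h h1
      refine ⟨(q - 1) * y, ?_⟩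
      have h2 : 2 * a * ((q - 1) * y) + 1 ≡ (q - 1) * 1 + 1 [MOD q] := by
        have h3 : 2 * a * y ≡ 1 [MOD q] := by rw [Nat.ModEq, hy, Nat.mod_eq_of_lt h1]
        have h4 := (h3.mul_left (q - 1)).add_right 1
        rwa [show (q - 1) * (2 * a * y) = 2 * a * ((q - 1) * y) by ring] at h4
      have h5 : (q - 1) * 1 + 1 = q := by omega
      rw [h5] at h2
      exact (Nat.modEq_zero_iff_dvd).1 (h2.trans ((Nat.modEq_zero_iff_dvd).2 (dvd_refl q)))
    · have : q = 1 := by omega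
      exact ⟨0, by rw [this]; exact one_dvd _⟩
  obtain ⟨v, hv⟩ := hv
  refine ⟨v, fun b => ?_⟩
  constructor
  · intro hb
    have h1 : 2 * a * b + 1 ≡ 2 * a * v + 1 [MOD q] :=
      ((Nat.modEq_zero_iff_dvd).2 hb).trans ((Nat.modEq_zero_iff_dvd).2 hv).symm
    have h2 : 2 * a * b ≡ 2 * a * v [MOD q] := Nat.ModEq.add_right_cancel' 1 h1
    exact Nat.ModEq.cancel_left_of_coprime (Nat.coprime_comm.1 h) h2
  · intro hb
    have h1 : 2 * a * b + 1 ≡ 2 * a * v + 1 [MOD q] := (hb.mul_left (2 * a)).add_right 1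
    exact (Nat.modEq_zero_iff_dvd).1 (h1.trans ((Nat.modEq_zero_iff_dvd).2 hv))

lemma class_card (n a q : ℕ) (hq : 0 < q) (h : Nat.Coprime (2 * a) q) :
    |(((Icc 1 n).filter (fun b => q ∣ 2 * a * b + 1)).card : ℝ) - n / q| ≤ 1 := by
  obtain ⟨v, hv⟩ := exists_class a q hq h
  have h1 : (Icc 1 n).filter (fun b => q ∣ 2 * a * b + 1) =
      (Ioc 0 n).filter (fun b => b ≡ v [MOD q]) := by
    ext b
    rw [mem_filter, mem_filter, hv, mem_Icc, mem_Ioc]
    exact Iff.rfl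
  rw [h1]
  have h2 := Nat.Ioc_filter_modEq_card 0 n hq v
  have hq0 : (0:ℚ) < q := by exact_mod_cast hq
  set x : ℚ := ((n:ℚ) - v) / q with hx
  set y : ℚ := (((0:ℕ):ℚ) - v) / q with hy
  have hxy : x - y = n / q := by
    rw [hx, hy]; push_cast; field_simp; ring
  have h3 : y ≤ x := by
    have : (0:ℚ) ≤ n / q := by positivity
    linarith
  have h4 : ⌊y⌋ ≤ ⌊x⌋ := Int.floor_le_floor h3
  rw [max_eq_left (by linarith)] at h2
  have h5 := Int.floor_le x
  have h6 := Int.lt_floor_add_one x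
  have h7 := Int.floor_le y
  have h8 := Int.lt_floor_add_one y
  have h9 : (((#{b ∈ Ioc 0 n | b ≡ v [MOD q]} : ℕ) : ℤ) : ℚ) = (⌊x⌋ : ℚ) - ⌊y⌋ := by
    rw [h2]; push_cast; ring
  have h10 : |((#{b ∈ Ioc 0 n | b ≡ v [MOD q]} : ℕ) : ℚ) - n / q| ≤ 1 := by
    rw [abs_le]
    have h11 : ((#{b ∈ Ioc 0 n | b ≡ v [MOD q]} : ℕ) : ℚ) = (⌊x⌋ : ℚ) - ⌊y⌋ := by
      rw [← h9]; push_cast; ring
    rw [h11]
    constructor <;> linarith
  have h12 : ((|((#{b ∈ Ioc 0 n | b ≡ v [MOD q]} : ℕ) : ℚ) - n / q| : ℚ) : ℝ) ≤ ((1:ℚ):ℝ) := by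
    exact_mod_cast h10
  push_cast at h12
  exact h12

lemma sum_inv_sq (z Y : ℕ) (hz : 1 ≤ z) : ∑ q ∈ Ioc z Y, (1:ℝ) / (q:ℝ) ^ 2 ≤ 1 / z := by
  rcases Nat.lt_or_ge Y z with h | h
  · rw [Ioc_eq_empty (by omega)]
    simp
  · have key : ∀ Y : ℕ, z ≤ Y → ∑ q ∈ Ioc z Y, (1:ℝ) / (q:ℝ) ^ 2 ≤ 1 / z - 1 / Y := by
      intro Y hY
      induction Y, hY using Nat.le_induction with
      | base => simp
      | succ k hk ih =>
        rw [← Finset.insert_Ioc_right_eq_Ioc_add_one hk, sum_insert (by simp)]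
        have hk0 : (0:ℝ) < k := by exact_mod_cast (by omega : 0 < k)
        have h1 : (1:ℝ) / ((k + 1 : ℕ) : ℝ) ^ 2 ≤ 1 / k - 1 / ((k + 1 : ℕ) : ℝ) := by
          push_cast
          rw [div_sub_div _ _ hk0.ne' (by positivity), div_le_div_iff₀ (by positivity) (by positivity)]
          nlinarith
        linarith
    have h2 := key Y h
    have : (0:ℝ) ≤ 1 / Y := by positivity
    linarith


lemma mf {α : Type*} {s : Finset α} {p : α → Prop} {inst : DecidablePred p} {a : α} :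
    a ∈ @Finset.filter α p inst s ↔ a ∈ s ∧ p a := Finset.mem_filter

open Classical in
/-- the number of `b ≤ n` such that `2ab+1` has no prime factor `≤ z` and is not divisible by the
square of a prime -/
lemma rough_finite : ∃ C : ℕ, 1 ≤ C ∧ ∀ z n a Y : ℕ, 2 ≤ z → 1 ≤ n → 1 ≤ a → 2 * a * n + 1 < (Y + 1) ^ 2 →
    (n:ℝ) / (C * Real.log z ^ 2) - (z:ℝ) ^ C - n / z - Y ≤
      (((Icc 1 n).filter (fun b => Squarefree (2 * a * b + 1) ∧
        ∀ p ∈ (2 * a * b + 1).primeFactors, z < p)).card : ℝ) := by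
  obtain ⟨C, hC, hLB⟩ := LB
  refine ⟨C, hC, ?_⟩
  intro z n a Y hz hn ha hY
  set Ps := (Icc 3 z).filter (fun p => p.Prime ∧ ¬ p ∣ a) with hPs
  have hPm : ∀ p ∈ Ps, p.Prime ∧ p ≤ z := by
    intro p hp
    rw [hPs, mem_filter, mem_Icc] at hp
    exact ⟨hp.2.1, hp.1.2⟩
  have hP3 : ∀ p ∈ Ps, 3 ≤ p := by
    intro p hp
    rw [hPs, mem_filter, mem_Icc] at hp
    exact hp.1.1
  have hPa : ∀ p ∈ Ps, ¬ p ∣ a := by
    intro p hp
    rw [hPs, mem_filter, mem_Icc] at hp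
    exact hp.2.2
  have hsieve := hLB z hz Ps hPm (fun p => 1 / (p:ℝ)) (by
    intro p hp
    have h3 : (3:ℝ) ≤ p := by exact_mod_cast hP3 p hp
    have hp0 : (0:ℝ) < p := by linarith
    refine ⟨by positivity, ?_, ?_⟩
    · rw [div_le_div_iff₀ hp0 (by norm_num)]
      linarith
    · rw [div_mul_eq_mul_div, div_le_iff₀ hp0]
      linarith) ℕ (Icc 1 n) (fun p b => p ∣ 2 * a * b + 1) (n:ℝ) 1 (by positivity) (by norm_num) (by
    intro I hI _
    have hIp : ∀ p ∈ I, p.Prime := fun p hp => (hPm p (hI hp)).1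
    have hq : 0 < ∏ p ∈ I, p := prod_pos fun p hp => (hIp p hp).pos
    have hcop : Nat.Coprime (2 * a) (∏ p ∈ I, p) := by
      apply Nat.Coprime.prod_right
      intro p hp
      rw [Nat.coprime_comm, (hIp p hp).coprime_iff_not_dvd]
      intro hd
      rcases (hIp p hp).dvd_mul.1 hd with h | h
      · have := Nat.le_of_dvd (by norm_num) h
        have := hP3 p (hI hp)
        omega
      · exact hPa p (hI hp) h
    have h1 := class_card n a _ hq hcop
    have h2 : cs (Icc 1 n) (fun b => ∀ p ∈ I, p ∣ 2 * a * b + 1) =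
        ((Icc 1 n).filter (fun b => (∏ p ∈ I, p) ∣ 2 * a * b + 1)).card := by
      unfold cs sel
      congr 1
      ext b
      rw [mf, mf]
      refine and_congr_right fun _ => ?_
      constructor
      · intro h
        exact Finset.prod_primes_dvd _ (fun p hp => (hIp p hp).prime) h
      · intro h p hp
        exact (Finset.dvd_prod_of_mem _ hp).trans h
    have h3 : (n:ℝ) * ∏ p ∈ I, 1 / (p:ℝ) = n / ((∏ p ∈ I, p : ℕ) : ℝ) := by
      push_cast
      rw [prod_div_distrib, prod_const_one, mul_one_div]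
    rw [h2, h3]
    exact h1)
  rw [one_mul] at hsieve
  -- the squares
  have hsub : sel (Icc 1 n) (fun b => ∀ p ∈ Ps, ¬ p ∣ 2 * a * b + 1) ⊆
      (Icc 1 n).filter (fun b => Squarefree (2 * a * b + 1) ∧
        ∀ p ∈ (2 * a * b + 1).primeFactors, z < p) ∪
      ((Ioc z Y).filter Nat.Prime).biUnion (fun q => (Icc 1 n).filter (fun b =>
        q ^ 2 ∣ 2 * a * b + 1)) := by
    intro b hb
    unfold sel at hb
    rw [mf] at hb
    obtain ⟨hbn, hb⟩ := hb
    rw [mem_union]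
    have hrough : ∀ p ∈ (2 * a * b + 1).primeFactors, z < p := by
      intro p hp
      rw [Nat.mem_primeFactors] at hp
      by_contra hpz
      push Not at hpz
      have hp2 : ¬ p ∣ 2 * a * b := fun h => by
        have := (Nat.dvd_add_right h).1 hp.2.1
        exact hp.1.one_lt.ne' (Nat.dvd_one.1 this)
      have hp3 : 3 ≤ p := by
        have h2 := hp.1.two_le
        rcases Nat.lt_or_ge 2 p with h | h
        · omega
        · exfalso
          have : p = 2 := by omega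
          exact hp2 (by rw [this, mul_assoc]; exact dvd_mul_right 2 _)
      refine hb p ?_ hp.2.1
      rw [hPs, mem_filter, mem_Icc]
      refine ⟨⟨hp3, hpz⟩, hp.1, fun h => hp2 ?_⟩
      exact (h.mul_left 2).mul_right b
    by_cases hsq : Squarefree (2 * a * b + 1)
    · left
      rw [mf]
      exact ⟨hbn, hsq, hrough⟩
    · right
      rw [Nat.squarefree_iff_prime_squarefree] at hsq
      push Not at hsq
      obtain ⟨q, hq, hqd⟩ := hsq
      rw [mem_biUnion]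
      refine ⟨q, ?_, ?_⟩
      · rw [mem_filter, mem_Ioc]
        refine ⟨⟨hrough q ?_, ?_⟩, hq⟩
        · rw [Nat.mem_primeFactors]
          exact ⟨hq, (dvd_mul_right q q).trans hqd, by omega⟩
        · have h1 := Nat.le_of_dvd (by omega) hqd
          have h2 : b ≤ n := (mem_Icc.1 hbn).2
          have h3 : 2 * a * b + 1 ≤ 2 * a * n + 1 := by
            have := Nat.mul_le_mul_left (2 * a) h2
            omega
          by_contra hYq
          push Not at hYq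
          have : (Y + 1) ^ 2 ≤ q * q := by
            rw [sq]; exact Nat.mul_le_mul hYq hYq
          omega
      · rw [mem_filter]
        exact ⟨hbn, by rw [sq]; exact hqd⟩
  have hcard := (card_le_card hsub).trans (card_union_le _ _)
  have hsqc : ((((Ioc z Y).filter Nat.Prime).biUnion (fun q => (Icc 1 n).filter (fun b =>
      q ^ 2 ∣ 2 * a * b + 1))).card : ℝ) ≤ n / z + Y := by
    have h1 : ((((Ioc z Y).filter Nat.Prime).biUnion (fun q => (Icc 1 n).filter (fun b =>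
        q ^ 2 ∣ 2 * a * b + 1))).card : ℝ) ≤ ∑ q ∈ (Ioc z Y).filter Nat.Prime,
        (((Icc 1 n).filter (fun b => q ^ 2 ∣ 2 * a * b + 1)).card : ℝ) := by
      exact_mod_cast card_biUnion_le
    have h2 : ∀ q ∈ (Ioc z Y).filter Nat.Prime,
        (((Icc 1 n).filter (fun b => q ^ 2 ∣ 2 * a * b + 1)).card : ℝ) ≤
          n * (1 / (q:ℝ) ^ 2) + 1 := by
      intro q hq
      rw [mem_filter, mem_Ioc] at hq
      by_cases hc : Nat.Coprime (2 * a) (q ^ 2)
      · have h3 := (abs_le.1 (class_card n a (q ^ 2) (pow_pos hq.2.pos 2) hc)).2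
        push_cast at h3
        rw [mul_one_div]
        linarith
      · have h3 : (Icc 1 n).filter (fun b => q ^ 2 ∣ 2 * a * b + 1) = ∅ := by
          rw [filter_eq_empty_iff]
          intro b _ hd
          apply hc
          rw [Nat.coprime_pow_right_iff (by norm_num), Nat.coprime_comm,
            hq.2.coprime_iff_not_dvd]
          intro h4
          have h5 : q ∣ 2 * a * b + 1 := (dvd_pow_self q (by norm_num)).trans hd
          have h6 := (Nat.dvd_add_right (h4.mul_right b)).1 h5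
          exact hq.2.one_lt.ne' (Nat.dvd_one.1 h6)
        rw [h3]
        simp only [card_empty, Nat.cast_zero]
        positivity
    refine h1.trans ((sum_le_sum h2).trans ?_)
    have h3 : ∑ q ∈ (Ioc z Y).filter Nat.Prime, ((n:ℝ) * (1 / (q:ℝ) ^ 2) + 1) ≤
        ∑ q ∈ Ioc z Y, ((n:ℝ) * (1 / (q:ℝ) ^ 2) + 1) :=
      sum_le_sum_of_subset_of_nonneg (filter_subset _ _) (fun q _ _ => by positivity)
    refine h3.trans ?_
    rw [sum_add_distrib, ← mul_sum, sum_const, nsmul_eq_mul, mul_one, Nat.card_Ioc]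
    have h4 := mul_le_mul_of_nonneg_left (sum_inv_sq z Y (by omega)) (Nat.cast_nonneg (α := ℝ) n)
    rw [mul_one_div] at h4
    have h5 : ((Y - z : ℕ) : ℝ) ≤ Y := by exact_mod_cast Nat.sub_le Y z
    linarith
  have hcard' : (cs (Icc 1 n) (fun b => ∀ p ∈ Ps, ¬ p ∣ 2 * a * b + 1) : ℝ) ≤
      (((Icc 1 n).filter (fun b => Squarefree (2 * a * b + 1) ∧
        ∀ p ∈ (2 * a * b + 1).primeFactors, z < p)).card : ℝ) +
      ((((Ioc z Y).filter Nat.Prime).biUnion (fun q => (Icc 1 n).filter (fun b =>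
        q ^ 2 ∣ 2 * a * b + 1))).card : ℝ) := by
    unfold cs
    exact_mod_cast hcard
  linarith

open Classical in
/-- N1 -/
theorem rough_partners : ∃ c : ℝ, 0 < c ∧ ∃ n0 : ℕ, ∀ n : ℕ, n0 ≤ n → ∀ a : ℕ, 1 ≤ a →
    (a : ℝ) ≤ (n : ℝ) ^ c → (n : ℝ) ^ (1 / 2 : ℝ) ≤ (((Icc 1 n).filter (fun b =>
      Squarefree (2 * a * b + 1) ∧
      ∀ p ∈ (2 * a * b + 1).primeFactors, (n : ℝ) ^ c < (p : ℝ))).card : ℝ) := by
  obtain ⟨C, hC, hfin⟩ := rough_finite
  have hC0 : (1:ℝ) ≤ C := by exact_mod_cast hC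
  set c : ℝ := 1 / (8 * C) with hc
  have hc0 : 0 < c := by positivity
  have hc8 : c ≤ 1 / 8 := by
    rw [hc, div_le_div_iff₀ (by positivity) (by norm_num)]
    linarith
  have hcC : c * C = 1 / 8 := by rw [hc]; field_simp
  -- asymptotics
  have hlog : ∀ᶠ n : ℕ in atTop, (C:ℝ) * Real.log n ^ 2 ≤ (n:ℝ) ^ (c / 4) := by
    have h1 := ((isLittleO_log_rpow_atTop (show 0 < c / 8 by positivity)).bound
      (show (0:ℝ) < 1 / C by positivity)).and (eventually_ge_atTop (1:ℝ))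
    have h2 := (tendsto_natCast_atTop_atTop (R := ℝ)).eventually h1
    filter_upwards [h2] with n hn
    obtain ⟨hn, hn1⟩ := hn
    have hl : 0 ≤ Real.log n := Real.log_nonneg hn1
    rw [Real.norm_of_nonneg hl, Real.norm_of_nonneg (by positivity)] at hn
    have h3 : Real.log n ^ 2 ≤ (1 / C * (n:ℝ) ^ (c / 8)) ^ 2 := pow_le_pow_left₀ hl hn 2
    have h4 : ((n:ℝ) ^ (c / 8)) ^ 2 = (n:ℝ) ^ (c / 4) := by
      rw [← Real.rpow_natCast, ← Real.rpow_mul (by linarith)]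
      congr 1
      push_cast
      ring
    rw [mul_pow, h4] at h3
    have h5 : (C:ℝ) * (1 / C) ^ 2 ≤ 1 := by
      have : (C:ℝ) * (1 / C) ^ 2 = 1 / C := by field_simp
      rw [this, div_le_one (by linarith)]
      exact hC0
    have h6 : (0:ℝ) ≤ (n:ℝ) ^ (c / 4) := by positivity
    calc (C:ℝ) * Real.log n ^ 2 ≤ C * ((1 / C) ^ 2 * (n:ℝ) ^ (c / 4)) :=
          mul_le_mul_of_nonneg_left h3 (by linarith)
      _ = (C * (1 / C) ^ 2) * (n:ℝ) ^ (c / 4) := by ring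
      _ ≤ 1 * (n:ℝ) ^ (c / 4) := mul_le_mul_of_nonneg_right h5 h6
      _ = (n:ℝ) ^ (c / 4) := one_mul _
  have hbig : ∀ᶠ n : ℕ in atTop, (9:ℝ) ≤ (n:ℝ) ^ (c / 4) :=
    ((tendsto_rpow_atTop (show 0 < c / 4 by positivity)).comp
      tendsto_natCast_atTop_atTop).eventually_ge_atTop 9
  obtain ⟨n0, hn0⟩ := (hlog.and (hbig.and (eventually_ge_atTop 2))).exists_forall_of_atTop
  refine ⟨c, hc0, n0, fun n hn a ha hac => ?_⟩
  obtain ⟨h1, h2, h3⟩ := hn0 n hn
  have hn1 : (1:ℝ) ≤ n := by exact_mod_cast (by omega : 1 ≤ n)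
  have hnpos : (0:ℝ) < n := by linarith
  -- `x e = n ^ e`
  have hmono : ∀ {e f : ℝ}, e ≤ f → (n:ℝ) ^ e ≤ (n:ℝ) ^ f := fun h =>
    Real.rpow_le_rpow_of_exponent_le hn1 h
  have hz9 : (9:ℝ) ≤ (n:ℝ) ^ c := h2.trans (hmono (by linarith))
  set z := ⌊(n:ℝ) ^ c⌋₊ with hzdef
  have hz9' : 9 ≤ z := Nat.le_floor (by exact_mod_cast hz9)
  have hzle : (z:ℝ) ≤ (n:ℝ) ^ c := Nat.floor_le (by positivity)
  have hzlt : (n:ℝ) ^ c < z + 1 := Nat.lt_floor_add_one _
  set Y := Nat.sqrt (2 * a * n + 1) with hYdef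
  have hY : 2 * a * n + 1 < (Y + 1) ^ 2 := by
    rw [sq]; exact Nat.lt_succ_sqrt _
  have hmain := hfin z n a Y (by omega) (by omega) ha hY
  -- the terms
  have hzr : (9:ℝ) ≤ z := by exact_mod_cast hz9'
  have t1 : (n:ℝ) ^ (1 - c / 4) ≤ n / (C * Real.log z ^ 2) := by
    have hlz : 0 < Real.log z := Real.log_pos (by linarith)
    have hlzn : Real.log z ≤ Real.log n := by
      apply Real.log_le_log (by linarith)
      exact hzle.trans ((hmono (show c ≤ 1 by linarith)).trans (by rw [Real.rpow_one]))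
    have h4 : (C:ℝ) * Real.log z ^ 2 ≤ (n:ℝ) ^ (c / 4) := by
      refine le_trans ?_ h1
      exact mul_le_mul_of_nonneg_left (pow_le_pow_left₀ hlz.le hlzn 2) (by linarith)
    rw [le_div_iff₀ (by positivity)]
    calc (n:ℝ) ^ (1 - c / 4) * (C * Real.log z ^ 2) ≤ (n:ℝ) ^ (1 - c / 4) * (n:ℝ) ^ (c / 4) :=
          mul_le_mul_of_nonneg_left h4 (by positivity)
      _ = n := by
        rw [← Real.rpow_add hnpos, sub_add_cancel, Real.rpow_one]
  have t2 : (z:ℝ) ^ C ≤ (n:ℝ) ^ (1 - c / 2) := by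
    calc (z:ℝ) ^ C ≤ ((n:ℝ) ^ c) ^ C := pow_le_pow_left₀ (by linarith) hzle C
      _ = (n:ℝ) ^ (c * C) := by rw [← Real.rpow_natCast, ← Real.rpow_mul hnpos.le]
      _ ≤ (n:ℝ) ^ (1 - c / 2) := hmono (by rw [hcC]; linarith)
  have t3 : (n:ℝ) / z ≤ 2 * (n:ℝ) ^ (1 - c / 2) := by
    have h4 : (n:ℝ) ^ c ≤ 2 * z := by linarith
    rw [div_le_iff₀ (by linarith)]
    have h5 : (n:ℝ) = (n:ℝ) ^ (1 - c) * (n:ℝ) ^ c := by
      rw [← Real.rpow_add hnpos, sub_add_cancel, Real.rpow_one]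
    have h6 : (n:ℝ) ^ (1 - c) ≤ (n:ℝ) ^ (1 - c / 2) := hmono (by linarith)
    calc (n:ℝ) = (n:ℝ) ^ (1 - c) * (n:ℝ) ^ c := h5
      _ ≤ (n:ℝ) ^ (1 - c / 2) * (2 * z) := mul_le_mul h6 h4 (by positivity) (by positivity)
      _ = 2 * (n:ℝ) ^ (1 - c / 2) * z := by ring
  have t4 : (Y:ℝ) ≤ 2 * (n:ℝ) ^ (1 - c / 2) := by
    have h4 : Y ^ 2 ≤ 2 * a * n + 1 := Nat.sqrt_le' _
    have h5 : (Y:ℝ) ^ 2 ≤ 2 * a * n + 1 := by exact_mod_cast h4
    have h6 : (Y:ℝ) ^ 2 ≤ 3 * ((n:ℝ) ^ c * n) := by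
      have h7 : (a:ℝ) * n ≤ (n:ℝ) ^ c * n := mul_le_mul_of_nonneg_right hac hnpos.le
      have h8 : (1:ℝ) ≤ (n:ℝ) ^ c * n := by nlinarith
      nlinarith
    have h9 : (n:ℝ) ^ c * n ≤ ((n:ℝ) ^ (1 - c / 2)) ^ 2 := by
      rw [← Real.rpow_natCast, ← Real.rpow_mul hnpos.le]
      calc (n:ℝ) ^ c * n = (n:ℝ) ^ (c + 1) := by rw [Real.rpow_add hnpos, Real.rpow_one]
        _ ≤ (n:ℝ) ^ ((1 - c / 2) * ((2:ℕ):ℝ)) := hmono (by push_cast; linarith)
    have h10 : (Y:ℝ) ^ 2 ≤ (2 * (n:ℝ) ^ (1 - c / 2)) ^ 2 := by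
      nlinarith [sq_nonneg ((n:ℝ) ^ (1 - c / 2))]
    exact (pow_le_pow_iff_left₀ (by positivity) (by positivity) (by norm_num)).1 h10
  have t5 : (n:ℝ) ^ (1 / 2 : ℝ) ≤ (n:ℝ) ^ (1 - c / 2) := hmono (by linarith)
  have t6 : 9 * (n:ℝ) ^ (1 - c / 2) ≤ (n:ℝ) ^ (1 - c / 4) := by
    calc 9 * (n:ℝ) ^ (1 - c / 2) ≤ (n:ℝ) ^ (c / 4) * (n:ℝ) ^ (1 - c / 2) :=
          mul_le_mul_of_nonneg_right h2 (by positivity)
      _ = (n:ℝ) ^ (1 - c / 4) := by
        rw [← Real.rpow_add hnpos]; congr 1; ring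
  have t7 : (((Icc 1 n).filter (fun b => Squarefree (2 * a * b + 1) ∧
        ∀ p ∈ (2 * a * b + 1).primeFactors, z < p)).card : ℝ) ≤
      (((Icc 1 n).filter (fun b => Squarefree (2 * a * b + 1) ∧
      ∀ p ∈ (2 * a * b + 1).primeFactors, (n : ℝ) ^ c < (p : ℝ))).card : ℝ) := by
    refine Nat.cast_le.2 (card_le_card fun b hb => ?_)
    rw [mf] at hb ⊢
    refine ⟨hb.1, hb.2.1, fun p hp => ?_⟩
    have h4 : (z:ℝ) + 1 ≤ p := by exact_mod_cast hb.2.2 p hp
    linarith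
  have t8 : 0 < (n:ℝ) ^ (1 - c / 2) := by positivity
  linarith

end Pool.Agent.H34.CU
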